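import Pool.Agent.H86.BlM

namespace Pool.Agent.Results.MP_9b1016_an.SemiIffOpen
open Pool.Agent.H86.Bl Filter Topology

/-- contractive lattice homomorphisms `A → B/I` -/
def Hom1 (A : Type) [BL A] {B : Type} [BL B] (I : Submodule ℝ B) : Type :=
  {φ : A →L[ℝ] B ⧸ I // LatHomQ I φ ∧ ‖φ‖ ≤ 1}

/-- the underlying function -/
def val {A B : Type} [BL A] [BL B] {I : Submodule ℝ B} (φ : Hom1 A I) (a : A) : B ⧸ I := φ.1 a

/-- the point-norm topology -/
@[reducible] noncomputable def ptTop (A : Type) [BL A] {B : Type} [BL B] (I : Submodule ℝ B) :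
    TopologicalSpace (Hom1 A I) :=
  TopologicalSpace.induced val Pi.topologicalSpace

/-- `φ` is `1⁺`-liftable. -/
def Liftable {A B : Type} [BL A] [BL B] (I : Submodule ℝ B) (φ : A → B ⧸ I) : Prop :=
  ∀ ε : ℝ, 0 < ε → ∃ S : A →L[ℝ] B, LatHom S ∧ (∀ p, I.mkQ (S p) = φ p) ∧ ‖S‖ ≤ 1 + ε

/-- `A` is `ℓ`-open. -/
def LOpen (A : Type) [BL A] : Prop :=
  ∀ (B : Type) [BL B], TopologicalSpace.SeparableSpace B → ∀ I : Submodule ℝ B, IsIdeal I →
    IsOpen[ptTop A I] {φ : Hom1 A I | Liftable I (val φ)}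

theorem all_lift {A B : Type} [BL A] [BL B] {I : Submodule ℝ B} (hI : IsIdeal I)
    (h : IsOpen[ptTop A I] {φ : Hom1 A I | Liftable I (val φ)}) (φ : Hom1 A I) :
    Liftable I (val φ) := by
  letI := ptTop A I
  let γ : unitInterval → Hom1 A I := fun t => ⟨(t : ℝ) • φ.1, fun p x hx => by
    obtain ⟨y, hy⟩ := I.mkQ_surjective (φ.1 p)
    change (t : ℝ) • φ.1 |p| = _
    rw [φ.2.1 p y hy, hI.abs_congr (a := x) (b := (t : ℝ) • y) (by rw [map_smul, hy]; exact hx), abs_smul',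
      abs_of_nonneg t.2.1, map_smul],
    ContinuousLinearMap.opNorm_le_bound _ zero_le_one fun p => (norm_smul_le (t : ℝ) (φ.1 p)).trans
      (mul_le_mul (by rw [Real.norm_of_nonneg t.2.1]; exact t.2.2) ((φ.1.le_opNorm p).trans
        (mul_le_of_le_one_left (norm_nonneg _) φ.2.2)) (norm_nonneg _) zero_le_one)⟩
  have hγ : Continuous γ := continuous_induced_rng.2 (continuous_pi fun a =>
    continuous_subtype_val.smul (continuous_const (y := φ.1 a)))
  have h0 : ∀ t : unitInterval, (t : ℝ) = 0 → Liftable I (val (γ t)) := fun t ht ε hε =>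
    ⟨0, fun p => by simp, fun p => by
      change _ = (t : ℝ) • φ.1 p
      rw [ht]; simp, by rw [norm_zero]; positivity⟩
  have hc : IsClosed (γ ⁻¹' {φ : Hom1 A I | Liftable I (val φ)}) := by
    refine isClosed_of_closure_subset fun t ht => ?_
    rcases eq_or_lt_of_le t.2.1 with h1 | h1
    · exact h0 t h1.symm
    intro ε hε
    obtain ⟨δ, hδ, hδ'⟩ : ∃ δ : ℝ, 0 < δ ∧ (1 + δ) * (1 + δ) ≤ 1 + ε :=
      ⟨min 1 (ε / 3), by positivity, by
        nlinarith [min_le_left 1 (ε / 3), min_le_right 1 (ε / 3),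
          lt_min one_pos (show 0 < ε / 3 by positivity)]⟩
    obtain ⟨s, hs, hs'⟩ := mem_closure_iff.1 ht {s : unitInterval | (t : ℝ) < (1 + δ) * s}
      (isOpen_lt continuous_const (by fun_prop)) (lt_mul_of_one_lt_left h1 (by linarith))
    have s0 : (0 : ℝ) < s := (mul_pos_iff_of_pos_left (by linarith : 0 < 1 + δ)).1 (h1.trans hs)
    obtain ⟨S, s1, s2, s3⟩ := hs' δ hδ
    refine ⟨((t : ℝ) / s) • S, s1.smul' (by positivity), fun p => ?_, ?_⟩
    · change I.mkQ (((t : ℝ) / s) • S p) = (t : ℝ) • φ.1 p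
      rw [map_smul, s2]
      change ((t : ℝ) / s) • (s : ℝ) • φ.1 p = _
      rw [smul_smul, div_mul_cancel₀ _ s0.ne']
    · rw [norm_smul, Real.norm_of_nonneg (by positivity)]
      exact (mul_le_mul ((div_le_iff₀ s0).2 (le_of_lt hs)) s3 (norm_nonneg _) (by linarith)).trans hδ'
  have := IsClopen.eq_univ ⟨hc, h.preimage hγ⟩ ⟨0, h0 0 rfl⟩
  have h1 : Liftable I (val (γ 1)) := Set.eq_univ_iff_forall.1 this 1
  rwa [show val (γ 1) = val φ from funext fun a => one_smul ℝ (φ.1 a)] at h1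

theorem result (A : Type) [BL A] : SemiProj.{0} A ↔ LOpen A := by
  refine ⟨fun h B _ _ I hI => ?_, fun h E _ hE I hI hm I' hI' φ hφ hn => ⟨0, fun ε hε => ?_⟩⟩
  · convert @isOpen_univ _ (ptTop A I)
    refine Set.eq_univ_of_forall fun φ ε hε => ?_
    haveI : TopologicalSpace.SeparableSpace (QL hI) :=
      I.mkQ_surjective.denseRange.separableSpace continuous_quot_mk
    obtain ⟨S, s1, s2, s3⟩ := semi_lift (E := QL hI) h (φ := φ.1) (fun p => by
      obtain ⟨y, hy⟩ := I.mkQ_surjective (φ.1 p)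
      change φ.1 |p| = @abs (QL hI) _ _ (φ.1 p)
      rw [φ.2.1 p y hy, ← hy]; rfl) φ.2.2 hI (T := ContinuousLinearMap.id ℝ (B ⧸ I))
        (by rintro p x rfl; rfl) hε
    exact ⟨S, s1, s2, s3.trans (mul_le_of_le_one_right (by positivity)
      ContinuousLinearMap.norm_id_le)⟩
  · have hJ : IsIdeal I' := hI' ▸ ideal_closure I hI hm
    obtain ⟨S, h1, h2, h3⟩ := all_lift hJ (h E hE I' hJ) ⟨φ, hφ, hn⟩ ε hε
    let Q : E →L[ℝ] E ⧸ I 0 := (I 0).mkQ.mkContinuous 1 fun x => by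
      simpa using Submodule.Quotient.norm_mk_le _ x
    refine ⟨Q.comp S, fun p x hx => ?_, ?_, fun p x hx => ?_⟩
    · change (I 0).mkQ (S |p|) = _
      rw [h1 p]; exact ((hI 0).abs_congr hx).symm
    · refine ContinuousLinearMap.opNorm_le_bound _ (by positivity) fun p => ?_
      exact (Submodule.Quotient.norm_mk_le _ (S p)).trans ((S.le_opNorm p).trans
        (mul_le_mul_of_nonneg_right h3 (norm_nonneg _)))
    · refine Eq.trans ((Submodule.Quotient.eq _).2 ?_) (h2 p)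
      rw [hI']
      exact Submodule.le_topologicalClosure _ (le_iSup I 0 ((Submodule.Quotient.eq _).1 hx))

end Pool.Agent.Results.MP_9b1016_an.SemiIffOpen
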